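import Pool.Agent.H.MP_5b044e_pr.A

/-! One-player percolation games have a limit value. -/

open Filter Topology MeasureTheory

namespace Pool.Agent.Results.MP_5b044e_pr.Limit

/-- total payoff collected from the state `z` along a list of actions -/
def pay {d : ℕ} {A : Type} (q : A → Fin d → ℤ) (g : (Fin d → ℤ) → A → ℝ) : (Fin d → ℤ) → List A → ℝ
  | _, [] => 0
  | z, a :: l => g z a + pay q g (z + q a) l

theorem result {d : ℕ} {A Ω : Type} [Fintype A] [Nonempty A] [MeasurableSpace Ω] (P : Measure Ω)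
    [IsProbabilityMeasure P] (τ : (Fin d → ℤ) → Ω → Ω) (hτ : ∀ y, MeasurePreserving (τ y) P P)
    (g : Ω → (Fin d → ℤ) → A → ℝ) (hm : ∀ z a, Measurable fun ω => g ω z a) (C : ℝ)
    (hb : ∀ ω z a, |g ω z a| ≤ C) (hs : ∀ y ω z, g (τ y ω) z = g ω (y + z)) (q : A → Fin d → ℤ)
    (z : Fin d → ℤ) : ∀ᵐ ω ∂P,
      (∃ L, Tendsto (fun n : ℕ => ⨆ l : List.Vector A n, pay q (g ω) z l.toList / n) atTop (𝓝 L)) ∧
      ∃ L, Tendsto (fun n : ℕ => ⨅ l : List.Vector A n, pay q (g ω) z l.toList / n) atTop (𝓝 L) := by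
  have e : ∀ (g : (Fin d → ℤ) → A → ℝ) l z, pay q g z l = H.MP_5b044e_pr.pay q g z l := fun g l => by
    induction l with
    | nil => exact fun _ => rfl
    | cons a l ih => intro z; simp only [pay, H.MP_5b044e_pr.pay, ih]
  simp only [e]
  classical
  exact H.MP_5b044e_pr.main (C := C) hτ hm hb hs z

end Pool.Agent.Results.MP_5b044e_pr.Limit
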